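import Pool.Agent.Helper48.DU.Basic

set_option autoImplicit false

namespace Pool.Agent.Helper48.DU

open Cardinal Ordinal Order Set Filter

universe u v w m

lemma mk_union_le {A : Type m} {K : Cardinal.{m}} (hK : ℵ₀ ≤ K) {δ : Ordinal.{m}}
    (hδ : δ.card ≤ K) (S : Ordinal.{m} → Set A) (h : ∀ ε < δ, #(S ε) ≤ K) :
    #(⋃ ε ∈ Set.Iio δ, S ε : Set A) ≤ K := by
  have h1 : (⋃ ε ∈ Set.Iio δ, S ε : Set A) = ⋃ x : δ.ToType, S (x : Ordinal) := by
    ext a
    simp only [mem_iUnion, exists_prop]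
    constructor
    · rintro ⟨ε, hε, ha⟩
      refine ⟨Ordinal.ToType.mk ⟨ε, hε⟩, ?_⟩
      simpa using ha
    · rintro ⟨x, hx⟩
      exact ⟨x.toOrd, x.toOrd.2, hx⟩
  rw [h1]
  refine (Cardinal.mk_iUnion_le _).trans ?_
  rw [Cardinal.mk_toType]
  calc δ.card * ⨆ x : δ.ToType, #(S (x : Ordinal)) ≤ K * K :=
        mul_le_mul' hδ (ciSup_le' fun x => h _ x.toOrd.2)
    _ = K := Cardinal.mul_eq_self hK

/-- Powers: if `K` is the supremum of cardinals whose `c`-th powers are `≤ K`, along a regular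
length `τ > c`, then `K ^ c ≤ K`. -/
lemma power_le_of_sup {K c τ : Cardinal.{m}} (hK : ℵ₀ ≤ K) (hτ : τ.IsRegular) (hτK : τ ≤ K)
    (hc : c < τ) (r : Ordinal.{m} → Cardinal.{m}) (hmono : ∀ a b, a ≤ b → r a ≤ r b)
    (hr : ∀ ζ < τ.ord, (r ζ) ^ c ≤ K) (hsup : ∀ x < K, ∃ ζ < τ.ord, x < r ζ) : K ^ c ≤ K := by
  classical
  have h0 : K ^ c = #(c.out → K.ord.ToType) := by
    rw [← Cardinal.power_def, Cardinal.mk_out, Cardinal.mk_toType, Cardinal.card_ord]
  rw [h0]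
  let T : Ordinal.{m} → Set K.ord.ToType := fun ζ => {x | (x : Ordinal) < (r ζ).ord}
  have hT : ∀ ζ, #(T ζ) ≤ r ζ := by
    intro ζ
    have h1 : #(T ζ) ≤ #((r ζ).ord.ToType) := by
      refine ⟨⟨fun x => Ordinal.ToType.mk ⟨((x : K.ord.ToType) : Ordinal), x.2⟩, ?_⟩⟩
      intro x y hxy
      have h2 := Ordinal.ToType.mk.injective hxy
      have h3 := Subtype.mk.inj h2
      exact Subtype.ext (Ordinal.ToType.mk.symm.injective (Subtype.ext h3))
    rwa [Cardinal.mk_toType, Cardinal.card_ord] at h1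
  have h1 : (Set.univ : Set (c.out → K.ord.ToType)) ⊆
      ⋃ ζ ∈ Set.Iio τ.ord, {f | ∀ j, f j ∈ T ζ} := by
    intro f _
    have h2 : ∀ j, ∃ ζ < τ.ord, ((f j : Ordinal) : Ordinal).card < r ζ := by
      intro j
      exact hsup _ (Cardinal.lt_ord.1 (f j).toOrd.2)
    choose z hz1 hz2 using h2
    have h3 : (⨆ j, z j) < τ.ord := by
      apply Ordinal.iSup_lt_of_lt_cof
      · rwa [hτ.cof_ord, Cardinal.mk_out]
      · exact hz1
    simp only [mem_iUnion, exists_prop]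
    refine ⟨_, h3, fun j => ?_⟩
    simp only [T, Set.mem_setOf_eq]
    rw [Cardinal.lt_ord]
    exact (hz2 j).trans_le (hmono _ _ (Ordinal.le_iSup z j))
  rw [← Cardinal.mk_univ]
  refine (Cardinal.mk_le_mk_of_subset h1).trans ?_
  apply mk_union_le hK (by rwa [Cardinal.card_ord])
  intro ζ hζ
  have h2 : #{f : c.out → K.ord.ToType | ∀ j, f j ∈ T ζ} ≤ #(c.out → T ζ) := by
    refine ⟨⟨fun f j => ⟨f.1 j, f.2 j⟩, ?_⟩⟩
    intro f g hfg
    apply Subtype.ext
    funext j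
    exact congrArg Subtype.val (congrFun hfg j)
  refine h2.trans ?_
  rw [← Cardinal.power_def, Cardinal.mk_out]
  exact (Cardinal.power_le_power_right (hT ζ)).trans (hr ζ hζ)

/-- `(ρ ^< τ) ^< τ = ρ ^< τ` for regular `τ`. -/
lemma powerlt_powerlt {ρ τ : Cardinal.{m}} (hρ : 2 ≤ ρ) (hτ : τ.IsRegular) :
    (ρ ^< τ) ^< τ ≤ ρ ^< τ := by
  have hρ0 : ρ ≠ 0 := by
    rintro rfl
    exact absurd hρ (by simp)
  have h1 : τ ≤ ρ ^< τ := by
    refine (le_two_powerlt (τ := τ)).trans ?_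
    rw [Cardinal.powerlt_le]
    intro x hx
    exact (Cardinal.power_le_power_right hρ).trans (Cardinal.le_powerlt _ hx)
  rw [Cardinal.powerlt_le]
  intro c hc
  apply power_le_of_sup (hτ.aleph0_le.trans h1) hτ h1 hc (fun ζ => ρ ^ ζ.card)
  · intro a b hab
    exact Cardinal.power_le_power_left hρ0 (Ordinal.card_le_card hab)
  · intro ζ hζ
    rw [← Cardinal.power_mul]
    exact Cardinal.le_powerlt _ (Cardinal.mul_lt_of_lt hτ.aleph0_le (Cardinal.lt_ord.1 hζ) hc)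
  · intro x hx
    by_contra hcon
    push Not at hcon
    refine absurd ?_ (not_le.2 hx)
    rw [Cardinal.powerlt_le]
    intro d hd
    have := hcon d.ord (Cardinal.ord_lt_ord.2 hd)
    rwa [Cardinal.card_ord] at this

end Pool.Agent.Helper48.DU
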