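import Mathlib

/-!
Ultraproducts of well orders: cofinal families, closures, and the walk.
-/

set_option autoImplicit false

namespace Pool.Agent.Helper48.DU

open Cardinal Ordinal Order Set Filter

universe u v w m

/-- `D` is `(ω, τ)`-regular: there are `τ` many sets in `D` such that every point lies in only
finitely many of them. -/
def OmegaRegular {ι : Type u} (D : Ultrafilter ι) (τ : Cardinal.{w}) : Prop :=
  ∃ B : Set.Iio τ.ord → Set ι, (∀ ξ, B ξ ∈ D) ∧ ∀ i, {ξ | i ∈ B ξ}.Finite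

lemma mk_union_lt {A : Type m} {μ : Cardinal.{m}} (hμ : μ.IsRegular) {δ : Ordinal.{m}}
    (hδ : δ.card < μ) (S : Ordinal.{m} → Set A) (h : ∀ ε < δ, #(S ε) < μ) :
    #(⋃ ε ∈ Set.Iio δ, S ε : Set A) < μ := by
  have h1 : (⋃ ε ∈ Set.Iio δ, S ε : Set A) = ⋃ x : δ.ToType, S (x : Ordinal) := by
    ext a
    simp only [mem_iUnion, exists_prop]
    constructor
    · rintro ⟨ε, hε, ha⟩
      refine ⟨Ordinal.ToType.mk ⟨ε, hε⟩, ?_⟩
      simpa using ha
    · rintro ⟨x, hx⟩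
      exact ⟨x.toOrd, x.toOrd.2, hx⟩
  rw [h1, card_iUnion_lt_iff_forall_of_isRegular hμ (by rwa [Cardinal.mk_toType])]
  intro x
  exact h _ x.toOrd.2

/-- A closure lemma. -/
lemma exists_closed {A : Type m} {μ τ : Cardinal.{m}} (hμ : μ.IsRegular) (hτ : τ.IsRegular)
    (hτμ : τ < μ) (Γ : Set A → Set A) (mono : ∀ s t, s ⊆ t → Γ s ⊆ Γ t)
    (hΓ : ∀ s : Set A, #s < μ → #(Γ s) < μ) :
    ∃ S : Set A, #S < μ ∧ ∀ s, s ⊆ S → #s < τ → Γ s ⊆ S := by
  classical
  let S : Ordinal.{m} → Set A :=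
    WellFounded.fix (wellFounded_lt) (fun ε r => Γ (⋃ ε' : Ordinal, ⋃ h : ε' < ε, r ε' h))
  have hS : ∀ ε, S ε = Γ (⋃ ε' ∈ Set.Iio ε, S ε') := fun ε => WellFounded.fix_eq _ _ ε
  have hcard : ∀ ε, ε < τ.ord → #(S ε) < μ := by
    intro ε
    induction ε using WellFoundedLT.induction with
    | ind ε ih =>
      intro hε
      rw [hS]
      apply hΓ
      apply mk_union_lt hμ ((Cardinal.lt_ord.1 hε).trans hτμ)
      intro ε' h'
      exact ih ε' h' (lt_trans h' hε)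
  refine ⟨⋃ ε ∈ Set.Iio τ.ord, S ε, mk_union_lt hμ (by rwa [Cardinal.card_ord]) _ hcard, ?_⟩
  intro s hs hcs
  have h1 : ∀ a : s, ∃ ε, ε < τ.ord ∧ (a : A) ∈ S ε := by
    intro a
    have := hs a.2
    simp only [mem_iUnion, exists_prop] at this
    exact this
  choose e he1 he2 using h1
  have h2 : (⨆ a, e a) < τ.ord := by
    apply Ordinal.iSup_lt_of_lt_cof
    · rwa [hτ.cof_ord]
    · exact he1
  have h3 : (⨆ a, e a) + 1 < τ.ord := (Cardinal.isSuccLimit_ord hτ.aleph0_le).add_one_lt h2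
  have h4 : s ⊆ ⋃ ε' ∈ Set.Iio ((⨆ a, e a) + 1), S ε' := by
    intro a ha
    simp only [mem_iUnion, exists_prop]
    refine ⟨e ⟨a, ha⟩, ?_, he2 ⟨a, ha⟩⟩
    exact lt_of_le_of_lt (Ordinal.le_iSup e ⟨a, ha⟩) (lt_add_one _)
  intro b hb
  simp only [mem_iUnion, exists_prop]
  refine ⟨_, h3, ?_⟩
  rw [hS]
  exact mono _ _ h4 hb

section

variable {ι : Type u} {Y : ι → Type w} [∀ i, LinearOrder (Y i)]

/-- strict order modulo `D` -/
def LtD (D : Ultrafilter ι) (f g : ∀ i, Y i) : Prop := ∀ᶠ i in (D : Filter ι), f i < g i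

/-- weak order modulo `D` -/
def LeD (D : Ultrafilter ι) (f g : ∀ i, Y i) : Prop := ∀ᶠ i in (D : Filter ι), f i ≤ g i

lemma ltD_of_not_leD {D : Ultrafilter ι} {f g : ∀ i, Y i} (h : ¬ LeD D f g) : LtD D g f := by
  have := Ultrafilter.eventually_not.2 h
  filter_upwards [this] with i hi
  exact not_le.1 hi

lemma LtD.trans_leD {D : Ultrafilter ι} {f g h : ∀ i, Y i} (h1 : LtD D f g) (h2 : LeD D g h) :
    LtD D f h := by
  filter_upwards [h1, h2] with i h3 h4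
  exact h3.trans_le h4

/-- A strictly increasing sequence of length `δ` modulo `D`. -/
def HasChain (D : Ultrafilter ι) (Y : ι → Type w) [∀ i, LinearOrder (Y i)]
    (δ : Ordinal.{m}) : Prop :=
  ∃ c : Ordinal.{m} → ∀ i, Y i, ∀ α β, α < β → β < δ → LtD D (c α) (c β)

lemma exists_cofinal (D : Ultrafilter ι) (μ : Cardinal.{max u w})
    (h : ¬ HasChain D Y μ.ord) (g : ∀ i, Y i) :
    ∃ H : Set (∀ i, Y i), #H < μ ∧ (∀ f ∈ H, LtD D f g) ∧
      ∀ f, LtD D f g → ∃ h ∈ H, LeD D f h := by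
  classical
  by_contra hcon
  push Not at hcon
  apply h
  have key : ∀ H : Set (∀ i, Y i), ∃ f : ∀ i, Y i, #H < μ → (∀ f ∈ H, LtD D f g) →
      LtD D f g ∧ ∀ h ∈ H, LtD D h f := by
    intro H
    by_cases h1 : #H < μ ∧ ∀ f ∈ H, LtD D f g
    · obtain ⟨f, hf1, hf2⟩ := hcon H h1.1 h1.2
      exact ⟨f, fun _ _ => ⟨hf1, fun h hh => ltD_of_not_leD (hf2 h hh)⟩⟩
    · exact ⟨g, fun h2 h3 => absurd ⟨h2, h3⟩ h1⟩
  choose pick hpick using key
  let c : Ordinal.{max u w} → ∀ i, Y i :=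
    WellFounded.fix (wellFounded_lt) (fun α r => pick {f | ∃ β, ∃ hβ : β < α, r β hβ = f})
  have hc : ∀ α, c α = pick (c '' Set.Iio α) := by
    intro α
    have h1 : c α = pick {f | ∃ β, ∃ _ : β < α, c β = f} := WellFounded.fix_eq _ _ α
    rw [h1]
    congr 1
    ext f
    simp [Set.mem_image]
  have hmk : ∀ α, α < μ.ord → #(c '' Set.Iio α) < μ := by
    intro α hα
    have h1 := @Cardinal.mk_image_le_lift _ _ c (Set.Iio α)
    rw [Cardinal.mk_Iio_ordinal] at h1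
    simp only [Cardinal.lift_lift] at h1
    have h2 : Cardinal.lift.{(max u w)+1} #(c '' Set.Iio α) ≤
        Cardinal.lift.{(max u w)+1} α.card := by
      simpa using h1
    exact (Cardinal.lift_le.1 h2).trans_lt (Cardinal.lt_ord.1 hα)
  have hind : ∀ α, α < μ.ord → LtD D (c α) g ∧ ∀ β < α, LtD D (c β) (c α) := by
    intro α
    induction α using WellFoundedLT.induction with
    | ind α ih =>
      intro hα
      have h1 := hpick (c '' Set.Iio α) (hmk α hα) (by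
        rintro _ ⟨β, hβ, rfl⟩
        exact (ih β hβ (lt_trans hβ hα)).1)
      rw [← hc] at h1
      exact ⟨h1.1, fun β hβ => h1.2 _ ⟨β, hβ, rfl⟩⟩
  exact ⟨c, fun α β hαβ hβ => (hind β hβ).2 α hαβ⟩

end

section

variable {ι : Type u} {Y : ι → Type w} [∀ i, LinearOrder (Y i)] [∀ i, WellFoundedLT (Y i)]
  [∀ i, OrderTop (Y i)]

/-- pointwise minimum of the functions of `P`, each taken only on its set -/
noncomputable def mn (P : Set ((∀ i, Y i) × Set ι)) : ∀ i, Y i := fun i =>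
  WellFounded.min (wellFounded_lt (α := Y i)) {y | y = ⊤ ∨ ∃ p ∈ P, i ∈ p.2 ∧ p.1 i = y}
    ⟨⊤, Or.inl rfl⟩

lemma mn_le {P : Set ((∀ i, Y i) × Set ι)} {p : (∀ i, Y i) × Set ι} (hp : p ∈ P) {i : ι}
    (hi : i ∈ p.2) : mn P i ≤ p.1 i := by
  have h1 : p.1 i ∈ {y | y = ⊤ ∨ ∃ p ∈ P, i ∈ p.2 ∧ p.1 i = y} := Or.inr ⟨p, hp, hi, rfl⟩
  exact not_lt.1 (WellFounded.not_lt_min (wellFounded_lt (α := Y i)) _ h1)

lemma le_mn {P : Set ((∀ i, Y i) × Set ι)} {f : ∀ i, Y i}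
    (h : ∀ p ∈ P, ∀ i ∈ p.2, f i ≤ p.1 i) (i : ι) : f i ≤ mn P i := by
  have h1 := WellFounded.min_mem (wellFounded_lt (α := Y i))
    {y | y = ⊤ ∨ ∃ p ∈ P, i ∈ p.2 ∧ p.1 i = y} ⟨⊤, Or.inl rfl⟩
  rcases h1 with h1 | ⟨p, hp, hi, h2⟩
  · unfold mn
    rw [h1]
    exact le_top
  · unfold mn
    rw [← h2]
    exact h p hp i hi

lemma finite_of_strictAnti {α β : Type*} [LinearOrder α] [WellFoundedLT α] [LinearOrder β]
    [WellFoundedLT β] (A : Set α) (φ : α → β) (h : ∀ x ∈ A, ∀ y ∈ A, x < y → φ y < φ x) :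
    A.Finite := by
  by_contra hinf
  have hinf : A.Infinite := hinf
  let e := hinf.natEmbedding
  obtain ⟨g, hg⟩ := exists_increasing_or_nonincreasing_subseq (· < ·) (fun n => ((e n : A) : α))
  rcases hg with hg | hg
  · have h1 : StrictAnti (fun n => φ (e (g n) : A)) := by
      intro m n hmn
      exact h _ (e (g m)).2 _ (e (g n)).2 (hg m n hmn)
    exact not_strictAnti_of_wellFoundedLT _ h1
  · have h1 : StrictAnti (fun n => ((e (g n) : A) : α)) := by
      intro m n hmn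
      refine lt_of_le_of_ne (not_lt.1 (hg m n hmn)) ?_
      intro h2
      have h3 : e (g n) = e (g m) := Subtype.ext h2
      have h4 := g.injective (e.injective h3)
      exact absurd h4 (ne_of_gt hmn)
    exact not_strictAnti_of_wellFoundedLT _ h1

lemma mk_small_sets_lt {A : Type m} {μ τ : Cardinal.{m}} (hμ : μ.IsRegular) (hτμ : τ < μ)
    (hμ0 : ℵ₀ < μ) (hpow : ∀ α < μ, α ^< τ < μ) (T : Set A) (hT : #T < μ) :
    #{P : Set A | P ⊆ T ∧ #P < τ} < μ := by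
  have h1 : {P : Set A | P ⊆ T ∧ #P < τ} ⊆
      ⋃ ζ ∈ Set.Iio τ.ord, {P : Set A | P ⊆ T ∧ #P ≤ (ζ : Ordinal.{m}).card} := by
    rintro P ⟨h2, h3⟩
    simp only [mem_iUnion, exists_prop]
    exact ⟨(#P).ord, Cardinal.ord_lt_ord.2 h3, h2, by rw [Cardinal.card_ord]⟩
  refine (Cardinal.mk_le_mk_of_subset h1).trans_lt ?_
  apply mk_union_lt hμ (by rwa [Cardinal.card_ord])
  intro ζ hζ
  refine (Cardinal.mk_bounded_subset_le T ζ.card).trans_lt ?_
  refine (Cardinal.le_powerlt _ (Cardinal.lt_ord.1 hζ)).trans_lt ?_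
  exact hpow _ (max_lt hT hμ0)

lemma le_two_powerlt {τ : Cardinal.{m}} : τ ≤ 2 ^< τ := by
  by_contra h
  push Not at h
  exact absurd (Cardinal.le_powerlt 2 h) (not_le.2 (Cardinal.cantor _))

/-- The walk: an ultraproduct of well orders with at least `μ` elements contains an increasing
`μ`-sequence, if the ultrafilter is not `(ω, τ)`-regular and `μ` is closed under powers `< τ`. -/
theorem chain_of_card (D : Ultrafilter ι) (μ τ : Cardinal.{max u w}) (hμ : μ.IsRegular)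
    (hτ : τ.IsRegular) (hpow : ∀ α < μ, α ^< τ < μ) (hι : Cardinal.lift.{w} (2 ^ #ι) < μ)
    (hD : ¬ OmegaRegular D τ)
    (hbig : ∀ S : Set (∀ i, Y i), #S < μ → ∃ f : ∀ i, Y i, ∀ g ∈ S,
      ¬ ∀ᶠ i in (D : Filter ι), f i = g i) : HasChain D Y μ.ord := by
  classical
  by_contra hno
  have hcof := exists_cofinal (Y := Y) D μ hno
  choose H hH1 hH2 hH3 using hcof
  have hτμ : τ < μ := le_two_powerlt.trans_lt
    (hpow 2 (Cardinal.ofNat_lt_aleph0.trans_le hμ.aleph0_le))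
  have hμ0 : ℵ₀ < μ := hτ.aleph0_le.trans_lt hτμ
  let Γ : Set (∀ i, Y i) → Set (∀ i, Y i) := fun s =>
    (⋃ g ∈ s, H g) ∪ mn '' {P | P ⊆ s ×ˢ (Set.univ : Set (Set ι)) ∧ #P < τ}
  have hΓ : ∀ s : Set (∀ i, Y i), #s < μ → #(Γ s) < μ := by
    intro s hs
    refine (Cardinal.mk_union_le _ _).trans_lt (Cardinal.add_lt_of_lt hμ.aleph0_le ?_ ?_)
    · exact (card_biUnion_lt_iff_forall_of_isRegular hμ hs).2 fun a _ => hH1 a
    · refine Cardinal.mk_image_le.trans_lt ?_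
      apply mk_small_sets_lt hμ hτμ hμ0 hpow
      have h1 : #(s ×ˢ (Set.univ : Set (Set ι)) : Set ((∀ i, Y i) × Set ι)) ≤
          #s * Cardinal.lift.{w} (2 ^ #ι) := by
        rw [Cardinal.mk_congr (Equiv.Set.prod s (Set.univ : Set (Set ι))), Cardinal.mk_prod]
        have h2 : Cardinal.lift.{u, max u w} #s = #s := Cardinal.lift_id'.{u, w} _
        have h3 : Cardinal.lift.{max u w, u} #(Set.univ : Set (Set ι)) =
            Cardinal.lift.{w} (2 ^ #ι) := by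
          rw [Cardinal.mk_univ, Cardinal.mk_set, Cardinal.lift_umax.{u, w}]
        rw [h2, h3]
      exact h1.trans_lt (Cardinal.mul_lt_of_lt hμ.aleph0_le hs hι)
  obtain ⟨S, hS1, hS2⟩ := exists_closed hμ hτ hτμ Γ (by
    intro s t hst
    apply Set.union_subset_union
    · exact Set.biUnion_subset_biUnion_left hst
    · apply Set.image_mono
      rintro P ⟨h1, h2⟩
      exact ⟨h1.trans (Set.prod_mono hst subset_rfl), h2⟩) hΓ
  have hSH : ∀ g ∈ S, H g ⊆ S := by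
    intro g hg h hh
    apply hS2 {g} (by simpa using hg)
    · rw [Cardinal.mk_singleton]
      exact Cardinal.one_lt_aleph0.trans_le hτ.aleph0_le
    · left
      simp only [mem_iUnion, exists_prop]
      exact ⟨g, rfl, hh⟩
  have hSm : ∀ P : Set ((∀ i, Y i) × Set ι), (∀ p ∈ P, p.1 ∈ S) → #P < τ → mn P ∈ S := by
    intro P h1 h2
    apply hS2 (Prod.fst '' P)
    · rintro _ ⟨p, hp, rfl⟩
      exact h1 p hp
    · exact Cardinal.mk_image_le.trans_lt h2
    · right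
      refine ⟨P, ⟨?_, h2⟩, rfl⟩
      intro p hp
      exact ⟨⟨p, hp, rfl⟩, trivial⟩
  obtain ⟨f, hf⟩ := hbig S hS1
  -- the walk
  have key : ∀ P : Set ((∀ i, Y i) × Set ι), ∃ q : (∀ i, Y i) × Set ι,
      mn P ∈ S → (∀ i, f i ≤ mn P i) →
      q.1 ∈ S ∧ q.2 ∈ D ∧ ∀ i ∈ q.2, f i ≤ q.1 i ∧ q.1 i < mn P i := by
    intro P
    by_cases h1 : mn P ∈ S ∧ ∀ i, f i ≤ mn P i
    · have h2 : LtD D f (mn P) := by
        have h3 := Ultrafilter.eventually_not.2 (hf _ h1.1)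
        filter_upwards [h3] with i hi
        exact lt_of_le_of_ne (h1.2 i) hi
      obtain ⟨h, hh1, hh2⟩ := hH3 _ _ h2
      refine ⟨(h, {i | f i ≤ h i ∧ h i < mn P i}), fun _ _ => ⟨hSH _ h1.1 hh1, ?_, ?_⟩⟩
      · exact hh2.and (hH2 _ _ hh1)
      · intro i hi
        exact hi
    · exact ⟨(f, ∅), fun h2 h3 => absurd ⟨h2, h3⟩ h1⟩
  choose st hst using key
  let q : Ordinal.{max u w} → (∀ i, Y i) × Set ι :=
    WellFounded.fix (wellFounded_lt) (fun α r => st {p | ∃ β, ∃ hβ : β < α, r β hβ = p})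
  have hq : ∀ α, q α = st (q '' Set.Iio α) := by
    intro α
    have h1 : q α = st {p | ∃ β, ∃ _ : β < α, q β = p} := WellFounded.fix_eq _ _ α
    rw [h1]
    congr 1
    ext p
    simp [Set.mem_image]
  have hmk : ∀ α, α < τ.ord → #(q '' Set.Iio α) < τ := by
    intro α hα
    have h1 := @Cardinal.mk_image_le_lift _ _ q (Set.Iio α)
    rw [Cardinal.mk_Iio_ordinal] at h1
    simp only [Cardinal.lift_lift] at h1
    have h2 : Cardinal.lift.{(max u w)+1} #(q '' Set.Iio α) ≤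
        Cardinal.lift.{(max u w)+1} α.card := by
      simpa using h1
    exact (Cardinal.lift_le.1 h2).trans_lt (Cardinal.lt_ord.1 hα)
  have hind : ∀ α, α < τ.ord → (q α).1 ∈ S ∧ (q α).2 ∈ D ∧ ∀ i ∈ (q α).2, f i ≤ (q α).1 i ∧
      (q α).1 i < mn (q '' Set.Iio α) i := by
    intro α
    induction α using WellFoundedLT.induction with
    | ind α ih =>
      intro hα
      have h1 := hst (q '' Set.Iio α) (by
        apply hSm _ _ (hmk α hα)
        rintro _ ⟨β, hβ, rfl⟩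
        exact (ih β hβ (lt_trans hβ hα)).1) (by
        apply le_mn
        rintro _ ⟨β, hβ, rfl⟩ i hi
        exact ((ih β hβ (lt_trans hβ hα)).2.2 i hi).1)
      rw [← hq] at h1
      exact h1
  apply hD
  refine ⟨fun ξ => (q ξ.1).2, fun ξ => (hind ξ.1 ξ.2).2.1, fun i => ?_⟩
  apply finite_of_strictAnti _ (fun ξ : Set.Iio τ.ord => (q ξ.1).1 i)
  intro x hx y hy hxy
  have h1 : q x.1 ∈ q '' Set.Iio y.1 := ⟨x.1, hxy, rfl⟩
  exact ((hind y.1 y.2).2.2 i hy).2.trans_le (mn_le h1 hx)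

end

end Pool.Agent.Helper48.DU
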