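import Pool.Agent.Helper48.DU.Sch

set_option autoImplicit false

namespace Pool.Agent.Helper48.DU

open Cardinal Ordinal Order Set Filter

universe u v w x m

section

variable {ι : Type u} (D : Ultrafilter ι) (lam : ι → Cardinal.{u})

/-- Constant functions form a chain. -/
lemma chain_const (P : ι → Type w) [∀ i, Preorder (P i)]
    (hP : ∀ i, ∃ f : Set.Iio (lam i).ord → P i, StrictMono f) (c : Cardinal.{u})
    (hc : ∀ i, c ≤ lam i) : Chain D P (Cardinal.lift.{u+1} c).ord := by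
  classical
  choose e he using hP
  have h1 : ∀ α : Set.Iio (Cardinal.lift.{u+1} c).ord, ∃ β : Ordinal.{u},
      Ordinal.lift.{u+1} β = α := by
    intro α
    have h2 : (α : Ordinal) ≤ Ordinal.lift.{u+1} c.ord := by
      rw [Cardinal.lift_ord.{u+1, u}]
      exact le_of_lt α.2
    exact Ordinal.mem_range_lift_of_le h2
  choose β hβ using h1
  have h2 : ∀ α i, β α < (lam i).ord := by
    intro α i
    have h3 : Ordinal.lift.{u+1} (β α) < Ordinal.lift.{u+1} c.ord := by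
      rw [hβ, Cardinal.lift_ord.{u+1, u}]
      exact α.2
    exact (Ordinal.lift_lt.1 h3).trans_le (Cardinal.ord_le_ord.2 (hc i))
  refine ⟨fun α i => e i ⟨β α, h2 α i⟩, fun α α' h => ?_⟩
  refine Filter.univ_mem' (fun i => ?_)
  apply he i
  show β α < β α'
  rw [← Ordinal.lift_lt.{u+1}, hβ, hβ]
  exact h

/-- Irregular ultrafilters, all lengths `μ ≤ |∏ lam i / D|` closed under powers `< τ`. -/
theorem irregular_all [Infinite ι] (hlam : ∀ i, 2 ^ #ι < lam i) (P : ι → Type w)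
    [∀ i, Preorder (P i)]
    (hP : ∀ i, ∃ f : Set.Iio (lam i).ord → P i, StrictMono f) (τ : Cardinal.{u+1})
    (hτ : τ.IsRegular) (hD : ¬ OmegaRegular D τ) (μ : Cardinal.{u+1})
    (hΛ : μ ≤ #(UProd D lam)) (hpow : ∀ α < μ, α ^< τ < μ) : Chain D P μ.ord := by
  have h0 : ℵ₀ ≤ 2 ^ #ι := (Cardinal.aleph0_le_mk ι).trans (Cardinal.cantor _).le
  have hlam0 : ∀ i, ℵ₀ ≤ lam i := fun i => h0.trans (hlam i).le
  rcases le_or_gt μ (Cardinal.lift.{u+1} (2 ^ #ι)) with h | h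
  · exact (chain_const D lam P hP (2 ^ #ι) (fun i => (hlam i).le)).mono D
      (Cardinal.ord_le_ord.2 h)
  · exact chain_irregular D lam hlam0 P hP μ τ hτ hpow h hD hΛ

/-- All ultrafilters, all lengths `μ ≤ |∏ lam i / D|` such that `χ ^ κ ≤ χ⁺` below `μ`. -/
theorem sch_all [Infinite ι] (hlam : ∀ i, 2 ^ #ι < lam i) (P : ι → Type w)
    [∀ i, Preorder (P i)]
    (hP : ∀ i, ∃ f : Set.Iio (lam i).ord → P i, StrictMono f) (μ : Cardinal.{u+1})
    (hΛ : μ ≤ #(UProd D lam))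
    (hsch : ∀ χ, Cardinal.lift.{u+1} (2 ^ #ι) ≤ χ → succ χ < μ →
      χ ^ Cardinal.lift.{u+1} #ι ≤ succ χ) : Chain D P μ.ord := by
  have h0 : ℵ₀ ≤ 2 ^ #ι := (Cardinal.aleph0_le_mk ι).trans (Cardinal.cantor _).le
  have hlam0 : ∀ i, ℵ₀ ≤ lam i := fun i => h0.trans (hlam i).le
  rcases le_or_gt μ (Cardinal.lift.{u+1} (2 ^ #ι)) with h | h
  · exact (chain_const D lam P hP (2 ^ #ι) (fun i => (hlam i).le)).mono D
      (Cardinal.ord_le_ord.2 h)
  · exact chain_sch D lam hlam0 P hP μ h hΛ hsch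

end

end Pool.Agent.Helper48.DU
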