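import Pool.Agent.Helper48.DU.Arith
import Pool.Agent.Helper48.DU.Singular

set_option autoImplicit false

namespace Pool.Agent.Helper48.DU

open Cardinal Ordinal Order Set Filter

universe u v w x m

section

variable {ι : Type u} (D : Ultrafilter ι) (lam : ι → Cardinal.{v})

/-- The ultraproduct of the ordinals `(lam i).ord`. -/
abbrev UProd : Type (max u (v+1)) :=
  Quot (fun f h : (∀ i, Set.Iio (lam i).ord) => {i | f i = h i} ∈ D)

lemma chain_of_hasChain (hlam : ∀ i, 1 ≤ lam i) (μ : Cardinal.{x}) (hμ : ℵ₀ ≤ μ)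
    (hchain : HasChain D (fun i => Set.Iic (lam i).ord) μ.ord) :
    Chain D (fun i => Set.Iio (lam i).ord) μ.ord := by
  classical
  let Y : ι → Type (v+1) := fun i => Set.Iic (lam i).ord
  obtain ⟨c, hc⟩ := hchain
  have hlim : IsSuccLimit μ.ord := Cardinal.isSuccLimit_ord hμ
  have h0 : ∀ i, (0 : Ordinal) < (lam i).ord := by
    intro i
    rw [← Cardinal.ord_zero]
    exact Cardinal.ord_lt_ord.2 (lt_of_lt_of_le zero_lt_one (hlam i))
  refine ⟨fun α i => if h : ((c α.1 i : Y i) : Ordinal) < (lam i).ord then ⟨_, h⟩ else ⟨0, h0 i⟩,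
    ?_⟩
  intro α β hαβ
  have h1 := hc α.1 β.1 hαβ β.2
  have h2 := hc β.1 (β.1 + 1) (lt_add_one _) (hlim.add_one_lt β.2)
  have h3 : ∀ᶠ i in (D : Filter ι), (if h : ((c α.1 i : Y i) : Ordinal) < (lam i).ord then
      (⟨_, h⟩ : Set.Iio (lam i).ord) else ⟨0, h0 i⟩) <
      (if h : ((c β.1 i : Y i) : Ordinal) < (lam i).ord then
      (⟨_, h⟩ : Set.Iio (lam i).ord) else ⟨0, h0 i⟩) := by
    filter_upwards [h1, h2] with i h4 h5
    have h6 : ((c β.1 i : Y i) : Ordinal) < (lam i).ord :=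
      lt_of_lt_of_le (show ((c β.1 i : Y i) : Ordinal) < (c (β.1+1) i : Y i) from h5)
        (c (β.1+1) i).2
    have h7 : ((c α.1 i : Y i) : Ordinal) < (lam i).ord :=
      lt_trans (show ((c α.1 i : Y i) : Ordinal) < (c β.1 i : Y i) from h4) h6
    rw [dif_pos h6, dif_pos h7]
    exact h4
  exact h3

lemma chain_regular (hlam : ∀ i, 1 ≤ lam i) (μ τ : Cardinal.{max u (v+1)})
    (hμ : μ.IsRegular) (hτ : τ.IsRegular) (hpow : ∀ α < μ, α ^< τ < μ)
    (hι : Cardinal.lift.{v+1} (2 ^ #ι) < μ) (hD : ¬ OmegaRegular D τ)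
    (hΛ : μ ≤ #(UProd D lam)) : Chain D (fun i => Set.Iio (lam i).ord) μ.ord := by
  classical
  let Y : ι → Type (v+1) := fun i => Set.Iic (lam i).ord
  have hchain : HasChain D Y μ.ord := by
    apply chain_of_card D μ τ hμ hτ hpow hι hD
    intro S hS
    by_contra hcon
    push Not at hcon
    let inc : (∀ i, Set.Iio (lam i).ord) → ∀ i, Y i := fun f i =>
      ⟨(f i).1, le_of_lt (show ((f i).1 : Ordinal) < (lam i).ord from (f i).2)⟩
    have h1 : ∀ f : (∀ i, Set.Iio (lam i).ord), ∃ g : S, ∀ᶠ i in (D : Filter ι),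
        inc f i = g.1 i := by
      intro f
      obtain ⟨g, hg1, hg2⟩ := hcon (inc f)
      exact ⟨⟨g, hg1⟩, hg2⟩
    choose G hG using h1
    have h2 : #(UProd D lam) ≤ #S := by
      refine ⟨⟨fun a => G a.out, ?_⟩⟩
      intro a b hab
      rw [← Quot.out_eq a, ← Quot.out_eq b]
      apply Quot.sound
      have h3 := hG a.out
      have h4 := hG b.out
      have h5 : G a.out = G b.out := hab
      rw [h5] at h3
      have h6 : ∀ᶠ i in (D : Filter ι), a.out i = b.out i := by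
        filter_upwards [h3, h4] with i h7 h8
        have h9 := h7.trans h8.symm
        have h10 := congrArg (fun z : Y i => ((z : Set.Iic (lam i).ord) : Ordinal)) h9
        exact Subtype.ext h10
      exact h6
    exact absurd (hΛ.trans h2) (not_le.2 hS)
  exact chain_of_hasChain D lam hlam μ hμ.aleph0_le hchain

lemma Chain.mono {P : ι → Type w} [∀ i, Preorder (P i)] {δ δ' : Ordinal.{x}} (h : δ ≤ δ')
    (hc : Chain D P δ') : Chain D P δ := by
  obtain ⟨g, hg⟩ := hc
  exact ⟨fun α => g ⟨α.1, α.2.trans_le h⟩, fun α β hαβ => hg _ _ hαβ⟩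

/-- All lengths. -/
theorem chain_irregular (hlam : ∀ i, ℵ₀ ≤ lam i) (P : ι → Type w) [∀ i, Preorder (P i)]
    (hP : ∀ i, ∃ f : Set.Iio (lam i).ord → P i, StrictMono f) (μ τ : Cardinal.{max u (v+1)})
    (hτ : τ.IsRegular) (hpow : ∀ α < μ, α ^< τ < μ)
    (hι : Cardinal.lift.{v+1} (2 ^ #ι) < μ) (hD : ¬ OmegaRegular D τ)
    (hΛ : μ ≤ #(UProd D lam)) : Chain D P μ.ord := by
  classical
  have hlam1 : ∀ i, 1 ≤ lam i := fun i => Cardinal.one_le_aleph0.trans (hlam i)
  apply chain_of_regular_lengths D lam P hlam hP μ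
  intro σ hσ hσμ
  rcases hσμ.eq_or_lt with h | h
  · subst h
    exact chain_regular D lam hlam1 σ τ hσ hτ hpow hι hD hΛ
  · by_cases hreg : μ.IsRegular
    · exact Chain.mono D (Cardinal.ord_le_ord.2 h.le)
        (chain_regular D lam hlam1 μ τ hreg hτ hpow hι hD hΛ)
    · let ρ : Cardinal.{max u (v+1)} := max σ (Cardinal.lift.{v+1} (2 ^ #ι))
      have hρ : ρ < μ := max_lt h hι
      have hρ2 : 2 ≤ ρ := (Cardinal.ofNat_lt_aleph0.le.trans hσ.aleph0_le).trans (le_max_left _ _)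
      have hν : ρ ^< τ < μ := hpow ρ hρ
      have hρν : ρ ≤ ρ ^< τ := by
        have h1 := Cardinal.le_powerlt ρ (Cardinal.one_lt_aleph0.trans_le hτ.aleph0_le)
        rwa [Cardinal.power_one] at h1
      have hν0 : ℵ₀ ≤ ρ ^< τ := (hσ.aleph0_le.trans (le_max_left _ _)).trans hρν
      have h2 : succ (ρ ^< τ) ≤ μ := succ_le_of_lt hν
      have h3 : (succ (ρ ^< τ)).IsRegular := Cardinal.isRegular_succ hν0
      refine Chain.mono D ?_
        (chain_regular D lam hlam1 (succ (ρ ^< τ)) τ h3 hτ ?_ ?_ hD (h2.trans hΛ))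
      · apply Cardinal.ord_le_ord.2
        exact (le_max_left _ _).trans (hρν.trans (le_succ _))
      · intro α hα
        have h4 : α ≤ ρ ^< τ := lt_succ_iff.1 hα
        have h5 : α ^< τ ≤ (ρ ^< τ) ^< τ := by
          rw [Cardinal.powerlt_le]
          intro c hc
          exact (Cardinal.power_le_power_right h4).trans (Cardinal.le_powerlt _ hc)
        exact lt_succ_iff.2 (h5.trans (powerlt_powerlt hρ2 hτ))
      · exact lt_succ_iff.2 ((le_max_right _ _).trans hρν)

end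

end Pool.Agent.Helper48.DU
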