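import Pool.Agent.Helper48.DU.Main

set_option autoImplicit false

namespace Pool.Agent.Helper48.DU

open Cardinal Ordinal Order Set Filter

universe u v w x m

lemma pow_le_of_bounded {ι : Type u} {χ : Cardinal.{u}} (hχ : ℵ₀ ≤ χ)
    (hpow : ∀ α < χ, α ^ #ι ≤ χ)
    (hbd : ∀ y : ι → Ordinal.{u}, (∀ i, y i < χ.ord) → ∃ b < χ.ord, ∀ i, y i < b) :
    χ ^ #ι ≤ χ := by
  classical
  have h0 : χ ^ #ι = #(ι → χ.ord.ToType) := by
    rw [← Cardinal.power_def, Cardinal.mk_toType, Cardinal.card_ord]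
  rw [h0, ← Cardinal.mk_univ]
  have h1 : (Set.univ : Set (ι → χ.ord.ToType)) ⊆
      ⋃ b ∈ Set.Iio χ.ord, {f | ∀ j, ((f j : χ.ord.ToType) : Ordinal) < b} := by
    intro f _
    obtain ⟨b, hb1, hb2⟩ := hbd (fun i => (f i : Ordinal)) (fun i => (f i).toOrd.2)
    simp only [mem_iUnion, exists_prop]
    exact ⟨b, hb1, hb2⟩
  refine (Cardinal.mk_le_mk_of_subset h1).trans ?_
  apply mk_union_le hχ (by rw [Cardinal.card_ord])
  intro b hb
  have h2 : #{f : ι → χ.ord.ToType | ∀ j, ((f j : χ.ord.ToType) : Ordinal) < b} ≤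
      #(ι → b.ToType) := by
    refine ⟨⟨fun f j => Ordinal.ToType.mk ⟨((f.1 j).toOrd : Ordinal), f.2 j⟩, ?_⟩⟩
    intro f g hfg
    apply Subtype.ext
    funext j
    have h3 := Subtype.mk.inj (Ordinal.ToType.mk.injective (congrFun hfg j))
    exact Ordinal.ToType.mk.symm.injective (Subtype.ext h3)
  refine h2.trans ?_
  rw [← Cardinal.power_def, Cardinal.mk_toType]
  exact hpow _ (Cardinal.lt_ord.1 hb)

section

variable {ι : Type u} (D : Ultrafilter ι) (lam : ι → Cardinal.{u})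

/-- An element above all constants below `χ`. -/
lemma exists_above {χ : Cardinal.{u}} (hχ : ℵ₀ ≤ χ)
    (hpow : ∀ α < χ, α ^ #ι ≤ χ) (hΛ : Cardinal.lift.{u+1} χ < #(UProd D lam)) :
    ∃ f : ∀ i, Set.Iio (lam i).ord, ∀ α < χ.ord, ∀ᶠ i in (D : Filter ι), α < (f i : Ordinal) := by
  classical
  by_contra hcon
  push Not at hcon
  have h1 : ∀ f : (∀ i, Set.Iio (lam i).ord), ∃ α : Set.Iio χ.ord, ∀ᶠ i in (D : Filter ι),
      (f i : Ordinal) ≤ α := by
    intro f
    obtain ⟨α, hα, h2⟩ := hcon f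
    exact ⟨⟨α, hα⟩, h2⟩
  choose A hA using h1
  let S : Set.Iio χ.ord → Set (ι → Ordinal.{u}) := fun y => {h | ∀ i, h i ≤ y}
  have h2 : #(UProd D lam) ≤ #(⋃ y, S y : Set (ι → Ordinal.{u})) := by
    refine ⟨⟨fun a => ⟨fun i => if (a.out i : Ordinal) ≤ A a.out then a.out i else 0, ?_⟩, ?_⟩⟩
    · simp only [mem_iUnion]
      refine ⟨A a.out, fun i => ?_⟩
      show (if (a.out i : Ordinal) ≤ A a.out then (a.out i : Ordinal) else 0) ≤ _
      split_ifs with h
      · exact h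
      · exact zero_le
    · intro a b hab
      rw [← Quot.out_eq a, ← Quot.out_eq b]
      apply Quot.sound
      have h3 := Subtype.mk.inj hab
      have h6 : ∀ᶠ i in (D : Filter ι), a.out i = b.out i := by
        filter_upwards [hA a.out, hA b.out] with i h7 h8
        have h9 := congrFun h3 i
        rw [if_pos h7, if_pos h8] at h9
        exact Subtype.ext h9
      exact h6
  have hlim : IsSuccLimit χ.ord := Cardinal.isSuccLimit_ord hχ
  have h3 : ∀ y : Set.Iio χ.ord, #(S y) ≤ Cardinal.lift.{u+1} χ := by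
    intro y
    have h4 : #(S y) ≤ #(ι → Set.Iio ((y : Ordinal) + 1)) := by
      refine ⟨⟨fun f j => ⟨f.1 j, lt_add_one_iff.2 (f.2 j)⟩, ?_⟩⟩
      intro f g hfg
      apply Subtype.ext
      funext j
      exact Subtype.mk.inj (congrFun hfg j)
    refine h4.trans ?_
    have h5 : #(ι → Set.Iio ((y : Ordinal) + 1)) =
        Cardinal.lift.{u+1} (((y : Ordinal) + 1).card ^ #ι) := by
      rw [Cardinal.mk_arrow, Cardinal.mk_Iio_ordinal, Cardinal.lift_power]
      simp
    rw [h5]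
    exact Cardinal.lift_le.2 (hpow _ (Cardinal.lt_ord.1 (hlim.add_one_lt y.2)))
  have h4 : #(⋃ y, S y : Set (ι → Ordinal.{u})) ≤ Cardinal.lift.{u+1} χ := by
    refine (Cardinal.mk_iUnion_le _).trans ?_
    rw [Cardinal.mk_Iio_ordinal, Cardinal.card_ord]
    calc Cardinal.lift.{u+1} χ * ⨆ y, #(S y) ≤
          Cardinal.lift.{u+1} χ * Cardinal.lift.{u+1} χ := mul_le_mul' le_rfl (ciSup_le' h3)
      _ = Cardinal.lift.{u+1} χ := Cardinal.mul_eq_self (by
        rw [← Cardinal.lift_aleph0.{u+1, u}]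
        exact Cardinal.lift_le.2 hχ)
  exact absurd (h2.trans h4) (not_le.2 hΛ)

theorem chain_succ {χ : Cardinal.{u}} [Infinite ι] (hκ : #ι < χ) (hlam : ∀ i, 1 ≤ lam i)
    (hpow : ∀ α < χ, α ^ #ι ≤ χ) (y : ι → Ordinal.{u}) (hy : ∀ i, y i < χ.ord)
    (hcof : ∀ b < χ.ord, ∃ i, b ≤ y i) (hΛ : Cardinal.lift.{u+1} χ < #(UProd D lam)) :
    Chain D (fun i => Set.Iio (lam i).ord) (succ (Cardinal.lift.{u+1} χ)).ord := by
  classical
  have hι : ℵ₀ ≤ #ι := Cardinal.aleph0_le_mk ι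
  have hχ : ℵ₀ ≤ χ := hι.trans hκ.le
  obtain ⟨f, hf⟩ := exists_above D lam hχ hpow hΛ
  let ν : ι → Cardinal.{u} := fun i => (f i : Ordinal).card
  have hν : ∀ i, ν i < lam i := fun i => Cardinal.lt_ord.1 (f i).2
  have hνD : ∀ α < χ, ∀ᶠ i in (D : Filter ι), α ≤ ν i := by
    intro α hα
    filter_upwards [hf α.ord (Cardinal.ord_lt_ord.2 hα)] with i hi
    exact Cardinal.ord_le.1 hi.le
  let Y : ι → Type (u+1) := fun i => Set.Iic (lam i).ord
  let g : ∀ i, Y i := fun i => ⟨(succ (ν i)).ord, Cardinal.ord_le_ord.2 (succ_le_of_lt (hν i))⟩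
  have hchain : HasChain D Y (succ (Cardinal.lift.{u+1} χ)).ord := by
    by_contra hno
    obtain ⟨H, hH1, hH2, hH3⟩ := exists_cofinal (Y := Y) D (succ (Cardinal.lift.{u+1} χ)) hno g
    have hH4 : #H ≤ #(Set.Iio χ.ord) := by
      rw [Cardinal.mk_Iio_ordinal, Cardinal.card_ord]
      exact lt_succ_iff.1 hH1
    obtain ⟨j⟩ := hH4
    let e : Ordinal.{u} → ∀ i, Y i := fun α => if h : ∃ h : H, (j h : Ordinal) = α then
      (h.choose : ∀ i, Y i) else g
    have he : ∀ h : H, e (j h) = h := by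
      intro h
      have h1 : ∃ h' : H, (j h' : Ordinal) = (j h : Ordinal) := ⟨h, rfl⟩
      show (if h' : ∃ h' : H, (j h' : Ordinal) = (j h : Ordinal) then
        (h'.choose : ∀ i, Y i) else g) = h
      rw [dif_pos h1]
      have h2 := h1.choose_spec
      have h3 := j.injective (Subtype.ext h2)
      rw [h3]
    have hlimν : ∀ i, ℵ₀ ≤ ν i → IsSuccLimit (succ (ν i)).ord := fun i hi =>
      Cardinal.isSuccLimit_ord (hi.trans (le_succ _))
    have hreg : ∀ i, ℵ₀ ≤ ν i → (succ (ν i)).ord.cof = succ (ν i) := fun i hi =>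
      (Cardinal.isRegular_succ hi).cof_ord
    -- bound for an initial part of the family
    let bb : Ordinal.{u} → ι → Ordinal.{u} := fun c i => ⨆ z : c.ToType,
      (if ((e (z : Ordinal) i : Y i) : Ordinal) < (succ (ν i)).ord then
        ((e (z : Ordinal) i : Y i) : Ordinal) + 1 else 0)
    have hbb1 : ∀ c i, ℵ₀ ≤ ν i → c.card ≤ ν i → bb c i < (succ (ν i)).ord := by
      intro c i h1 h2
      apply Ordinal.iSup_lt_of_lt_cof
      · rw [hreg i h1, Cardinal.mk_toType]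
        exact lt_succ_iff.2 h2
      · intro z
        split_ifs with h3
        · exact (hlimν i h1).add_one_lt h3
        · exact (hlimν i h1).bot_lt
    have hbb2 : ∀ c i α, α < c → ((e α i : Y i) : Ordinal) < (succ (ν i)).ord →
        ((e α i : Y i) : Ordinal) < bb c i := by
      intro c i α h1 h2
      have h3 := Ordinal.le_iSup (fun z : c.ToType =>
        (if ((e (z : Ordinal) i : Y i) : Ordinal) < (succ (ν i)).ord then
        ((e (z : Ordinal) i : Y i) : Ordinal) + 1 else 0)) (Ordinal.ToType.mk ⟨α, h1⟩)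
      have h4 : ((Ordinal.ToType.mk ⟨α, h1⟩ : c.ToType) : Ordinal) = α := by simp
      simp only [h4] at h3
      rw [if_pos h2] at h3
      exact (lt_add_one _).trans_le h3
    let b : ι → Ordinal.{u} := fun i => ⨆ k : ι,
      (if (y k + 1).card ≤ ν i then bb (y k + 1) i else 0)
    have hb : ∀ i, #ι ≤ ν i → b i < (succ (ν i)).ord := by
      intro i h1
      have h2 : ℵ₀ ≤ ν i := hι.trans h1
      apply Ordinal.iSup_lt_of_lt_cof
      · rw [hreg i h2]
        exact lt_succ_iff.2 h1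
      · intro k
        split_ifs with h3
        · exact hbb1 _ _ h2 h3
        · exact (hlimν i h2).bot_lt
    let b' : ∀ i, Y i := fun i => if h : b i < (succ (ν i)).ord then
      ⟨b i, h.le.trans (Cardinal.ord_le_ord.2 (succ_le_of_lt (hν i)))⟩ else g i
    have hb' : ∀ i, #ι ≤ ν i → ((b' i : Y i) : Ordinal) = b i := by
      intro i h1
      show ((if h : b i < (succ (ν i)).ord then
        (⟨b i, h.le.trans (Cardinal.ord_le_ord.2 (succ_le_of_lt (hν i)))⟩ : Y i) else g i : Y i) :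
        Ordinal) = b i
      rw [dif_pos (hb i h1)]
    have hlt : LtD D b' g := by
      filter_upwards [hνD _ hκ] with i hi
      show ((b' i : Y i) : Ordinal) < (succ (ν i)).ord
      rw [hb' i hi]
      exact hb i hi
    obtain ⟨h, hh1, hh2⟩ := hH3 b' hlt
    have hhg := hH2 h hh1
    have hα : (j ⟨h, hh1⟩ : Ordinal) < χ.ord := (j ⟨h, hh1⟩).2
    have heα := he ⟨h, hh1⟩
    obtain ⟨k, hk⟩ := hcof _ hα
    have hlimχ : IsSuccLimit χ.ord := Cardinal.isSuccLimit_ord hχ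
    have hfin : ∀ᶠ i in (D : Filter ι), False := by
      filter_upwards [hh2, hhg, hνD _ hκ, hνD _ (Cardinal.lt_ord.1 (hlimχ.add_one_lt (hy k)))]
        with i h1 h2 h3 h4
      have h5 : ((h i : Y i) : Ordinal) < (succ (ν i)).ord := h2
      have h6 : ((h i : Y i) : Ordinal) < bb (y k + 1) i := by
        have := hbb2 (y k + 1) i (j ⟨h, hh1⟩ : Ordinal) (lt_add_one_iff.2 hk) (by
          rw [heα]
          exact h5)
        rw [heα] at this
        exact this
      have h7 : bb (y k + 1) i ≤ b i := by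
        have := Ordinal.le_iSup (fun k : ι =>
          (if (y k + 1).card ≤ ν i then bb (y k + 1) i else 0)) k
        simp only [h4, if_true] at this
        exact this
      have h8 : ((b' i : Y i) : Ordinal) ≤ ((h i : Y i) : Ordinal) := h1
      rw [hb' i h3] at h8
      exact absurd (h6.trans_le h7) (not_lt.2 h8)
    exact absurd (Filter.eventually_false_iff_eq_bot.1 hfin) D.neBot.ne
  obtain ⟨c, hc⟩ := hchain
  have hreg2 : (succ (Cardinal.lift.{u+1} χ)).IsRegular := Cardinal.isRegular_succ (by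
    rw [← Cardinal.lift_aleph0.{u+1, u}]
    exact Cardinal.lift_le.2 hχ)
  exact chain_of_hasChain D lam hlam _ hreg2.aleph0_le ⟨c, hc⟩

lemma not_omegaRegular {τ : Cardinal.{m}} (hτ : ℵ₀ < τ)
    (hι : Cardinal.lift.{m} #ι < Cardinal.lift.{u} τ) : ¬ OmegaRegular D τ := by
  classical
  rintro ⟨B, hB1, hB2⟩
  have h1 : (Set.univ : Set (Set.Iio τ.ord)) = ⋃ i : ι, {ξ | i ∈ B ξ} := by
    ext ξ
    simp only [mem_univ, mem_iUnion, true_iff]
    exact D.nonempty_of_mem (hB1 ξ)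
  have h2 := Cardinal.mk_iUnion_le_sum_mk_lift (f := fun i : ι => {ξ : Set.Iio τ.ord | i ∈ B ξ})
  rw [← h1, Cardinal.mk_univ, Cardinal.mk_Iio_ordinal, Cardinal.card_ord] at h2
  have h3 : Cardinal.sum (fun i : ι => #{ξ : Set.Iio τ.ord | i ∈ B ξ}) ≤
      Cardinal.sum (fun _ : ι => (ℵ₀ : Cardinal.{m+1})) := by
    apply Cardinal.sum_le_sum
    intro i
    exact (Cardinal.mk_le_aleph0_iff.2 (hB2 i).countable)
  rw [Cardinal.sum_const] at h3
  have h4 := h2.trans h3
  have h5 : Cardinal.lift.{m+1} #ι * Cardinal.lift.{u} (ℵ₀ : Cardinal.{m+1}) <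
      Cardinal.lift.{u} (Cardinal.lift.{m+1} τ) := by
    have h6 : ℵ₀ ≤ Cardinal.lift.{u} (Cardinal.lift.{m+1} τ) :=
      Cardinal.aleph0_le_lift.2 (Cardinal.aleph0_le_lift.2 hτ.le)
    apply Cardinal.mul_lt_of_lt h6
    · have := Cardinal.lift_lt.{_, m+1}.2 hι
      simpa using this
    · simpa using hτ
  exact absurd h4 (not_le.2 h5)

lemma exists_lift_of_le {α : Cardinal.{u+1}} (h : α ≤ #(UProd D lam)) :
    ∃ χ : Cardinal.{u}, Cardinal.lift.{u+1} χ = α := by
  have h1 : #(UProd D lam) ≤ #(∀ i, Set.Iio (lam i).ord) := Cardinal.mk_quot_le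
  have h2 : Cardinal.lift.{u} #(∀ i, Set.Iio (lam i).ord) =
      Cardinal.lift.{u+1} #(∀ i, (lam i).ord.ToType) :=
    Cardinal.lift_mk_eq'.2 ⟨Equiv.piCongrRight fun i => Ordinal.ToType.mk.toEquiv⟩
  have h3 : α ≤ Cardinal.lift.{u+1} #(∀ i, (lam i).ord.ToType) := by
    rw [← h2]
    refine (h.trans h1).trans ?_
    rw [Cardinal.lift_id'.{u, u+1}]
  exact Cardinal.mem_range_lift_of_le h3

lemma chain_sch_regular [Infinite ι] (hlam : ∀ i, 1 ≤ lam i) (σ μ : Cardinal.{u+1})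
    (hσ : σ.IsRegular) (hισ : Cardinal.lift.{u+1} (2 ^ #ι) < σ) (hσμ : σ ≤ μ)
    (hΛ : μ ≤ #(UProd D lam))
    (hsch : ∀ χ, Cardinal.lift.{u+1} (2 ^ #ι) ≤ χ → succ χ < μ →
      χ ^ Cardinal.lift.{u+1} #ι ≤ succ χ) :
    Chain D (fun i => Set.Iio (lam i).ord) σ.ord := by
  classical
  have hι0 : ℵ₀ ≤ #ι := Cardinal.aleph0_le_mk ι
  have hι1 : ℵ₀ ≤ Cardinal.lift.{u+1} #ι := Cardinal.aleph0_le_lift.2 hι0
  by_cases h : ∀ α < σ, α ^ Cardinal.lift.{u+1} #ι < σ
  · refine chain_regular D lam hlam σ (succ (Cardinal.lift.{u+1} #ι)) hσ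
      (Cardinal.isRegular_succ hι1) ?_ hισ ?_ (hσμ.trans hΛ)
    · intro α hα
      have h1 : α ^< succ (Cardinal.lift.{u+1} #ι) ≤ max 1 (α ^ Cardinal.lift.{u+1} #ι) := by
        rw [Cardinal.powerlt_le]
        intro c hc
        by_cases h0 : α = 0
        · subst h0
          exact (Cardinal.zero_power_le _).trans (le_max_left _ _)
        · exact (Cardinal.power_le_power_left h0 (lt_succ_iff.1 hc)).trans (le_max_right _ _)
      exact h1.trans_lt (max_lt (Cardinal.one_lt_aleph0.trans_le hσ.aleph0_le) (h α hα))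
    · apply not_omegaRegular D (lt_succ_iff.2 hι1)
      have h1 : Cardinal.lift.{u+1} #ι < succ (Cardinal.lift.{u+1} #ι) := lt_succ _
      have h2 := Cardinal.lift_lt.{u+1, u}.2 h1
      simpa using h1
  · push Not at h
    obtain ⟨α, hα, h1⟩ := h
    obtain ⟨α', hα'⟩ : ∃ α', α' = max α (Cardinal.lift.{u+1} (2 ^ #ι)) := ⟨_, rfl⟩
    have h2 : α' < σ := hα' ▸ max_lt hα hισ
    have h3 : Cardinal.lift.{u+1} (2 ^ #ι) ≤ α' := hα' ▸ le_max_right _ _
    have h4 : σ ≤ α' ^ Cardinal.lift.{u+1} #ι :=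
      h1.trans (Cardinal.power_le_power_right (hα' ▸ le_max_left _ _))
    have h5 : σ = succ α' := by
      refine le_antisymm ?_ (succ_le_of_lt h2)
      rcases lt_or_ge (succ α') μ with h' | h'
      · exact h4.trans (hsch α' h3 h')
      · exact hσμ.trans h'
    have h6 : Cardinal.lift.{u+1} (2 ^ #ι) < α' := by
      refine lt_of_le_of_ne h3 ?_
      intro h7
      rw [← h7, ← Cardinal.lift_power, ← Cardinal.power_mul, Cardinal.mul_eq_self hι0] at h4
      exact absurd h4 (not_le.2 hισ)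
    obtain ⟨χ, hχ⟩ := exists_lift_of_le D lam (h2.le.trans (hσμ.trans hΛ))
    subst hχ
    have h7 : 2 ^ #ι < χ := Cardinal.lift_lt.1 h6
    have hκχ : #ι < χ := (Cardinal.cantor _).trans h7
    have hpow : ∀ β < χ, β ^ #ι ≤ χ := by
      intro β hβ
      have h8 : max β (2 ^ #ι) < χ := max_lt hβ h7
      have h9 := hsch (Cardinal.lift.{u+1} (max β (2 ^ #ι)))
        (Cardinal.lift_le.2 (le_max_right _ _))
        ((succ_le_of_lt (Cardinal.lift_lt.2 h8)).trans_lt (h2.trans_le hσμ))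
      rw [← Cardinal.lift_power, ← Cardinal.lift_succ, Cardinal.lift_le] at h9
      exact (Cardinal.power_le_power_right (le_max_left _ _)).trans
        (h9.trans (succ_le_of_lt h8))
    by_cases hN : ∀ y : ι → Ordinal.{u}, (∀ i, y i < χ.ord) → ∃ b < χ.ord, ∀ i, y i < b
    · have h8 := pow_le_of_bounded (hι0.trans hκχ.le) hpow hN
      rw [← Cardinal.lift_power] at h4
      exact absurd (h4.trans (Cardinal.lift_le.2 h8)) (not_le.2 h2)
    · push Not at hN
      obtain ⟨y, hy, hcof⟩ := hN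
      rw [h5]
      exact chain_succ D lam hκχ hlam hpow y hy hcof (h2.trans_le (hσμ.trans hΛ))

/-- The version under local SCH. -/
theorem chain_sch [Infinite ι] (hlam : ∀ i, ℵ₀ ≤ lam i) (P : ι → Type w) [∀ i, Preorder (P i)]
    (hP : ∀ i, ∃ f : Set.Iio (lam i).ord → P i, StrictMono f) (μ : Cardinal.{u+1})
    (hι : Cardinal.lift.{u+1} (2 ^ #ι) < μ) (hΛ : μ ≤ #(UProd D lam))
    (hsch : ∀ χ, Cardinal.lift.{u+1} (2 ^ #ι) ≤ χ → succ χ < μ →
      χ ^ Cardinal.lift.{u+1} #ι ≤ succ χ) : Chain D P μ.ord := by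
  classical
  have hlam1 : ∀ i, 1 ≤ lam i := fun i => Cardinal.one_le_aleph0.trans (hlam i)
  have hι0 : ℵ₀ ≤ Cardinal.lift.{u+1} (2 ^ #ι) := by
    have h1 : ℵ₀ ≤ #ι := Cardinal.aleph0_le_mk ι
    have h2 : ℵ₀ ≤ 2 ^ #ι := h1.trans (Cardinal.cantor _).le
    exact Cardinal.aleph0_le_lift.2 h2
  apply chain_of_regular_lengths D lam P hlam hP μ
  intro σ hσ hσμ
  rcases le_or_gt σ (Cardinal.lift.{u+1} (2 ^ #ι)) with h | h
  · refine Chain.mono D ?_ (chain_sch_regular D lam hlam1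
      (succ (Cardinal.lift.{u+1} (2 ^ #ι))) μ (Cardinal.isRegular_succ hι0) (lt_succ _)
      (succ_le_of_lt hι) hΛ hsch)
    exact Cardinal.ord_le_ord.2 (h.trans (le_succ _))
  · exact chain_sch_regular D lam hlam1 σ μ hσ h hσμ hΛ hsch

end

end Pool.Agent.Helper48.DU
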